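import Pool.Agent.H31.DPD.Targets
import Pool.Agent.H77.DP.LB

/-!
# Project DPD (MP_c59857_nt), row LB: the comparison with the correlations over the cubes with
sides in `Q ℤ`
-/

set_option autoImplicit false

open Finset

namespace Pool.Agent.H77.DPD

open Pool.Agent.H31.DP Pool.Agent.H31.DPD Pool.Agent.H77.DP

/-- the iterated difference of a power -/
theorem iter_diff {ι : Type} [DecidableEq ι] (s : ι → ℝ) (T : Finset ι) :
    ∀ (m : ℕ) (y : ℝ), m ≤ T.card →
      ∑ I ∈ T.powerset, (-1 : ℝ) ^ I.card * (y + ∑ i ∈ I, s i) ^ m =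
        if m = T.card then (-1 : ℝ) ^ T.card * (T.card.factorial : ℝ) * ∏ i ∈ T, s i else 0 := by
  induction T using Finset.induction_on with
  | empty =>
    intro m y hm
    have hm0 : m = 0 := by simpa using hm
    subst hm0
    simp
  | insert a T ha ih =>
    intro m y hm
    rw [Finset.sum_powerset_insert ha, ← Finset.sum_add_distrib]
    rw [Finset.card_insert_of_notMem ha] at hm ⊢
    rw [Finset.prod_insert ha]
    have h1 : ∀ I ∈ T.powerset, (-1 : ℝ) ^ I.card * (y + ∑ i ∈ I, s i) ^ m +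
        (-1 : ℝ) ^ (insert a I).card * (y + ∑ i ∈ insert a I, s i) ^ m =
        -∑ j ∈ Finset.range m, (s a ^ (m - j) * (m.choose j : ℝ)) *
          ((-1 : ℝ) ^ I.card * (y + ∑ i ∈ I, s i) ^ j) := by
      intro I hI
      have haI : a ∉ I := fun h => ha (Finset.mem_powerset.1 hI h)
      rw [Finset.card_insert_of_notMem haI, Finset.sum_insert haI]
      have h2 : y + (s a + ∑ i ∈ I, s i) = (y + ∑ i ∈ I, s i) + s a := by ring
      rw [h2, add_pow (y + ∑ i ∈ I, s i) (s a) m, Finset.sum_range_succ]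
      simp only [Nat.sub_self, pow_zero, Nat.choose_self, Nat.cast_one, mul_one]
      rw [pow_succ, mul_add, ← Finset.sum_neg_distrib]
      have h3 : ∑ j ∈ Finset.range m, -(s a ^ (m - j) * (m.choose j : ℝ) *
          ((-1 : ℝ) ^ I.card * (y + ∑ i ∈ I, s i) ^ j)) =
          (-1 : ℝ) ^ I.card * -1 * ∑ j ∈ Finset.range m,
            (y + ∑ i ∈ I, s i) ^ j * s a ^ (m - j) * (m.choose j : ℝ) := by
        rw [Finset.mul_sum]
        refine Finset.sum_congr rfl fun j _ => ?_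
        ring
      rw [h3]
      ring
    rw [Finset.sum_congr rfl h1, Finset.sum_neg_distrib, Finset.sum_comm]
    simp only [← Finset.mul_sum]
    have h4 : ∀ j ∈ Finset.range m, s a ^ (m - j) * (m.choose j : ℝ) *
        ∑ I ∈ T.powerset, (-1 : ℝ) ^ I.card * (y + ∑ i ∈ I, s i) ^ j =
        s a ^ (m - j) * (m.choose j : ℝ) *
          (if j = T.card then (-1 : ℝ) ^ T.card * (T.card.factorial : ℝ) * ∏ i ∈ T, s i else 0) := by
      intro j hj
      rw [ih j y (by have := Finset.mem_range.1 hj; omega)]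
    rw [Finset.sum_congr rfl h4]
    by_cases hmT : m = T.card + 1
    · subst hmT
      rw [if_pos rfl, Finset.sum_range_succ, Finset.sum_eq_zero, if_pos rfl]
      · have h5 : (T.card + 1).choose T.card = T.card + 1 := Nat.choose_succ_self_right _
        have h6 : T.card + 1 - T.card = 1 := by omega
        rw [h5, h6, Nat.factorial_succ]
        push_cast
        ring
      · intro j hj
        rw [if_neg (by have := Finset.mem_range.1 hj; omega), mul_zero]
    · rw [if_neg hmT, Finset.sum_eq_zero, neg_zero]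
      intro j hj
      rw [if_neg (by have := Finset.mem_range.1 hj; omega), mul_zero]

theorem ee_sum {ι : Type} (T : Finset ι) (f : ι → ℝ) :
    ∏ i ∈ T, ee (f i) = ee (∑ i ∈ T, f i) := by
  classical
  induction T using Finset.induction_on with
  | empty => simp [ee_zero]
  | insert a T ha ih => rw [Finset.prod_insert ha, Finset.sum_insert ha, ih, ee_add]

/-- the function whose correlations over the cubes are twisted by `d! β ∏ s` -/
noncomputable def twf {l : ℕ} (d : ℕ) (h : Fin l → ℕ) (p : ℕ) (β : ℝ) (y : ℤ) : ℂ :=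
  ((FF h p y : ℝ) : ℂ) * ee ((-1) ^ d * β * (y : ℝ) ^ d)

theorem ac_tw {l d : ℕ} (h : Fin l → ℕ) (p : ℕ) (β : ℝ) (s : Fin d → ℤ) (y : ℤ) :
    AC (twf d h p β) s y =
      ee ((d.factorial : ℝ) * β * ((∏ i, s i : ℤ) : ℝ)) * ((GC h p s y : ℝ) : ℂ) := by
  unfold AC GC
  have h1 : ∀ I : Finset (Fin d),
      (if Even I.card then twf d h p β (y + sI s I)
        else (starRingEnd ℂ) (twf d h p β (y + sI s I))) =
      ((FF h p (y + sI s I) : ℝ) : ℂ) *
        ee ((-1) ^ d * β * ((-1 : ℝ) ^ I.card * ((y : ℝ) + ∑ i ∈ I, (s i : ℝ)) ^ d)) := by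
    intro I
    have e : ((y + sI s I : ℤ) : ℝ) = (y : ℝ) + ∑ i ∈ I, (s i : ℝ) := by
      unfold sI
      push_cast
      ring
    unfold twf
    rw [e]
    by_cases hI : Even I.card
    · rw [if_pos hI, hI.neg_one_pow, one_mul]
    · rw [if_neg hI, (Nat.not_even_iff_odd.1 hI).neg_one_pow, map_mul, Complex.conj_ofReal, ee_conj]
      congr 2
      ring
  rw [Finset.prod_congr rfl (fun I _ => h1 I), Finset.prod_mul_distrib, ee_sum,
    ← Finset.mul_sum]
  have h2 := iter_diff (fun i => (s i : ℝ)) (Finset.univ : Finset (Fin d)) d (y : ℝ)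
    (by rw [Finset.card_univ, Fintype.card_fin])
  rw [Finset.powerset_univ, Finset.card_univ, Fintype.card_fin, if_pos rfl] at h2
  rw [h2]
  have h3 : (-1 : ℝ) ^ d * β * ((-1) ^ d * (d.factorial : ℝ) * ∏ i, (s i : ℝ)) =
      (d.factorial : ℝ) * β * ((∏ i, s i : ℤ) : ℝ) := by
    have h4 : (-1 : ℝ) ^ d * (-1) ^ d = 1 := by
      rw [← mul_pow]
      norm_num
    push_cast
    linear_combination (β * (d.factorial : ℝ) * ∏ i, (s i : ℝ)) * h4
  rw [h3]
  push_cast
  ring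

theorem rcc_eq {l : ℕ} (d : ℕ) (h : Fin l → ℕ) (p D M : ℕ) (γ : ℝ) :
    RCc d h p D M γ =
      ∑ s ∈ mulc d D M, ∑ y ∈ IC M s, AC (twf d h p (γ / (p : ℝ) ^ d)) s y := by
  unfold RCc CAc
  refine Finset.sum_congr rfl fun s _ => ?_
  push_cast
  rw [Finset.mul_sum]
  refine Finset.sum_congr rfl fun y _ => ?_
  rw [ac_tw]
  push_cast
  ring

theorem ttc_eq {l d : ℕ} (h : Fin l → ℕ) (p M : ℕ) (s : Fin d → ℤ) :
    (p : ℝ) * CBc h p M s = CAc h p M s + TTc h p M s := by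
  unfold CAc TTc CBc bal ind
  rw [Finset.sum_filter, Finset.mul_sum, ← Finset.sum_add_distrib]
  refine Finset.sum_congr rfl fun y _ => ?_
  by_cases hy : (p : ℤ) ∣ y
  · rw [if_pos hy, if_pos hy]
    ring
  · rw [if_neg hy, if_neg hy]
    ring

theorem pf_LB (hUD : P_UD) (hSQ : P_SQ) (hKC : P_KC) : P_LB := by
  intro d l h p Q M P hd hP hp hpQ hQ hM
  have hp0 : 0 < p := hp.pos
  have hp1 : (0 : ℝ) < p := by exact_mod_cast hp0
  set α := P.coeff d with hα
  -- the error term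
  set E : ℂ := ∑ s ∈ mulc d p M, ee ((d.factorial : ℝ) * (α / (p : ℝ) ^ d) *
    ((∏ i, s i : ℤ) : ℝ)) * ((TTc h p M s : ℝ) : ℂ) with hE
  have h1 : (p : ℂ) * RCc d h 1 1 (M / p) α = RCc d h p p M α + E := by
    rw [hSQ d l h p M α hd hp, hE]
    unfold RCc
    rw [Finset.mul_sum, ← Finset.sum_add_distrib]
    refine Finset.sum_congr rfl fun s _ => ?_
    have h2 := congrArg (fun x : ℝ => (x : ℂ)) (ttc_eq h p M s)
    simp only [Complex.ofReal_mul, Complex.ofReal_add, Complex.ofReal_natCast] at h2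
    linear_combination ee ((d.factorial : ℝ) * (α / (p : ℝ) ^ d) * ((∏ i, s i : ℤ) : ℝ)) * h2
  have h2 : (p : ℝ) * (RCc d h 1 1 (M / p) α).re = (RCc d h p p M α).re + E.re := by
    have h3 := congrArg Complex.re h1
    rw [Complex.add_re] at h3
    rw [← h3]
    have h4 : (p : ℂ) = ((p : ℝ) : ℂ) := by push_cast; rfl
    rw [h4, Complex.re_ofReal_mul]
  -- the main term
  have h3 : (p : ℝ) ^ d * (RCc d h p p M α).re ≤ (Q : ℝ) ^ d * (RCc d h p Q M α).re := by
    rw [rcc_eq d h p p M α, rcc_eq d h p Q M α]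
    have h4 := hKC d (twf d h p (α / (p : ℝ) ^ d)) M p Q hQ hpQ
    have h5 := mul_le_mul_of_nonneg_left h4 (pow_nonneg hp1.le d)
    refine h5.trans (le_of_eq ?_)
    rw [div_pow, ← mul_assoc, mul_div_cancel₀ _ (pow_ne_zero d hp1.ne')]
  -- the error term
  have h6 : ‖E‖ ≤ ∑ s ∈ mulc d p M, |TTc h p M s| := by
    refine (norm_sum_le _ _).trans (Finset.sum_le_sum fun s _ => ?_)
    rw [norm_mul, norm_ee, one_mul, Complex.norm_real, Real.norm_eq_abs]
  have h7 : (∑ s ∈ mulc d p M, |TTc h p M s|) ^ 2 ≤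
      ((mulc d p M).card : ℝ) * ∑ s ∈ mulc d p M, (TTc h p M s) ^ 2 := by
    have := sq_sum_le_card_mul_sum_sq (s := mulc d p M) (f := fun s => |TTc h p M s|)
    simpa [sq_abs] using this
  have hcard : (p : ℝ) ^ d * ((mulc d p M).card : ℝ) ≤ (3 * (M : ℝ)) ^ d := by
    have hc : (mulc d p M).card = (mul p M).card ^ d := by
      unfold mulc
      rw [Fintype.card_piFinset, Finset.prod_const, Finset.card_univ, Fintype.card_fin]
    rw [hc]
    push_cast
    rw [← mul_pow]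
    exact pow_le_pow_left₀ (by positivity) (card_mul_le p M hp0 hM) d
  have h8 : (p : ℝ) ^ d * ‖E‖ ≤ Real.sqrt ((3 * (M : ℝ)) ^ d * DDc d h p M) := by
    apply Real.le_sqrt_of_sq_le
    have h9 : 0 ≤ ∑ s ∈ mulc d p M, (TTc h p M s) ^ 2 := Finset.sum_nonneg fun s _ => sq_nonneg _
    have h10 : ‖E‖ ^ 2 ≤ ((mulc d p M).card : ℝ) * ∑ s ∈ mulc d p M, (TTc h p M s) ^ 2 :=
      (pow_le_pow_left₀ (norm_nonneg _) h6 2).trans h7
    calc ((p : ℝ) ^ d * ‖E‖) ^ 2 = ((p : ℝ) ^ d) ^ 2 * ‖E‖ ^ 2 := by ring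
      _ ≤ ((p : ℝ) ^ d) ^ 2 * (((mulc d p M).card : ℝ) * ∑ s ∈ mulc d p M, (TTc h p M s) ^ 2) :=
        mul_le_mul_of_nonneg_left h10 (by positivity)
      _ = ((p : ℝ) ^ d * ((mulc d p M).card : ℝ)) *
          ((p : ℝ) ^ d * ∑ s ∈ mulc d p M, (TTc h p M s) ^ 2) := by
        ring
      _ ≤ (3 * (M : ℝ)) ^ d * ((p : ℝ) ^ d * ∑ s ∈ mulc d p M, (TTc h p M s) ^ 2) :=
        mul_le_mul_of_nonneg_right hcard (by positivity)
      _ = (3 * (M : ℝ)) ^ d * DDc d h p M := by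
        unfold DDc
        ring
  have h11 : E.re ≤ ‖E‖ := Complex.re_le_norm E
  have h12 : (p : ℝ) ^ (d + 1) * (RCc d h 1 1 (M / p) α).re ≤
      (Q : ℝ) ^ d * (RCc d h p Q M α).re + Real.sqrt ((3 * (M : ℝ)) ^ d * DDc d h p M) := by
    calc (p : ℝ) ^ (d + 1) * (RCc d h 1 1 (M / p) α).re =
          (p : ℝ) ^ d * ((p : ℝ) * (RCc d h 1 1 (M / p) α).re) := by rw [pow_succ]; ring
      _ = (p : ℝ) ^ d * (RCc d h p p M α).re + (p : ℝ) ^ d * E.re := by rw [h2]; ring
      _ ≤ _ := by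
        have := mul_le_mul_of_nonneg_left h11 (pow_nonneg hp1.le d)
        linarith
  have h13 := hUD d l h (M / p) P hd hP
  have h14 : (0 : ℝ) ≤ (2 * ((M / p : ℕ) : ℝ) + 1) ^ (2 ^ d - (d + 1)) := by positivity
  calc (p : ℝ) ^ (d + 1) * ‖SgP h (M / p) P‖ ^ (2 ^ d) ≤
        (p : ℝ) ^ (d + 1) * ((2 * ((M / p : ℕ) : ℝ) + 1) ^ (2 ^ d - (d + 1)) *
          (RCc d h 1 1 (M / p) α).re) := mul_le_mul_of_nonneg_left h13 (by positivity)
    _ = (2 * ((M / p : ℕ) : ℝ) + 1) ^ (2 ^ d - (d + 1)) *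
        ((p : ℝ) ^ (d + 1) * (RCc d h 1 1 (M / p) α).re) := by ring
    _ ≤ _ := mul_le_mul_of_nonneg_left h12 h14

end Pool.Agent.H77.DPD
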